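import Pool.Agent.Run7.h748.Cov.Sharp

/-!
# MP_ef2672_gt: near-optimal lattices cover well, equidistribute noise, have long dual vectors

`L = A ℤⁿ` is a lattice, `minSq A = λ₁(L)²`, `gam A = λ₁(L)² / det(L)^(2/n)` its Hermite invariant,
`hermite n = γ_n`. `covered A ρ` is the fraction of the space covered by the open balls of radius
`ρ` about the points of `L`, `cellMean A f` is the mean of the `L`-periodic function `f` and
`gaussMean v f` its mean for Gaussian noise of variance `v` in every coordinate.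

* Every lattice `L` has a superlattice with the same minimum whose index is at least `δ / 4` divided by
  the fraction of space covered by the balls of radius `(1 + δ) λ₁`; its Hermite invariant is at least
  `(δ / 4)^(2/n) (1 + δ)^(-2) n / (2πe)`. So this fraction is at least
  `(δ / 4) (gam A / γ_n)^(n/2)`.
* If for some periodic `f` and some `v > 1` the mean of `f` for noise of variance
  `v λ₁² / n` exceeds `log (mean of exp f)` by `η n`, that is, if the noise modulo `L` has an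
  entropy deficiency of at least `η n`, then `(1 + c) min (gam A, n / (2πe)) ≤ γ_n` with
  `c = c(v, η) > 0`. For `v < 1` and `gam A ≤ n / (2πe)` there is always such an `f`.
* The same holds if the dual lattice has `ε n` linearly independent vectors of length at most
  `C √n / λ₁`, for instance for the sublattices of `ℤⁿ` with `λ₁ ≤ C √n`.

If the believed value `1 / (2πe)` of the limit of `γ_n / n` is right, then this holds for no
asymptotically optimal sequence of lattices.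
-/

set_option autoImplicit false

namespace Pool.Agent.Results.MP_ef2672_gt.CoverageAndDualVectors

open Pool.Agent.H160R3.Herm (minSq hermite)
open Pool.Agent.TH220.HG (gam)
open Run7.h748.Cov (covered cellMean gaussMean Periodic IsDual)

/-- Superlattices with the same minimum -/
def Superlattices : Prop :=
  ∀ n : ℕ, 0 < n → ∀ A : Matrix (Fin n) (Fin n) ℝ, A.det ≠ 0 → ∀ δ : ℝ, 0 < δ → δ ≤ 1 →
    ∃ (B : Matrix (Fin n) (Fin n) ℝ) (M : Matrix (Fin n) (Fin n) ℤ),
      A = B * M.map (fun z : ℤ => (z : ℝ)) ∧ minSq B = minSq A ∧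
      δ / 4 ≤ |(M.det : ℝ)| * covered A ((1 + δ) * √(minSq A)) ∧
      (δ / 4) ^ ((2 : ℝ) / n) / (1 + δ) ^ 2 * (n / (2 * Real.pi * Real.exp 1)) ≤ gam B

/-- The covered fraction -/
def Coverage : Prop :=
  ∀ n : ℕ, 0 < n → ∀ A : Matrix (Fin n) (Fin n) ℝ, A.det ≠ 0 → ∀ δ : ℝ, 0 < δ → δ ≤ 1 →
    δ / 4 * gam A ^ ((n : ℝ) / 2) ≤
      covered A ((1 + δ) * √(minSq A)) * hermite n ^ ((n : ℝ) / 2)

/-- Periodic functions and Gaussian noise, for all dimensions -/
def NoiseInequality : Prop :=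
  ∀ n : ℕ, 0 < n → ∀ A : Matrix (Fin n) (Fin n) ℝ, A.det ≠ 0 → ∀ δ α : ℝ, 0 < δ → δ ≤ 1 → 0 < α →
    ∀ f : (Fin n → ℝ) → ℝ, Continuous f → Periodic A f →
      δ / 4 * gam A ^ ((n : ℝ) / 2) * Real.exp (α / (1 + α) *
          (gaussMean ((1 + 2 * α) * (1 + δ) ^ 2 * minSq A / n) f -
          Real.log (cellMean A fun x => Real.exp (f x)))) ≤
        (1 + ((1 + δ) ^ 2 * (2 * Real.pi * Real.exp 1 * gam A / n)) ^ ((n : ℝ) / 2)) *
          hermite n ^ ((n : ℝ) / 2)

/-- Noise of variance above `λ₁² / n` -/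
def SupercriticalNoise : Prop :=
  ∀ v η : ℝ, 1 < v → 0 < η → ∃ c > 0, ∃ n0 : ℕ, ∀ n ≥ n0, ∀ A : Matrix (Fin n) (Fin n) ℝ,
    A.det ≠ 0 → ∀ f : (Fin n → ℝ) → ℝ, Continuous f → Periodic A f →
      η * n ≤ gaussMean (v * minSq A / n) f - Real.log (cellMean A fun x => Real.exp (f x)) →
      (1 + c) * min (gam A) (n / (2 * Real.pi * Real.exp 1)) ≤ hermite n

/-- Noise of smaller variance: the condition `1 < v` is necessary -/
def SubcriticalNoise : Prop :=
  ∀ n : ℕ, 0 < n → ∀ A : Matrix (Fin n) (Fin n) ℝ, A.det ≠ 0 → ∀ v : ℝ, 0 < v →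
    ∃ f : (Fin n → ℝ) → ℝ, Continuous f ∧ Periodic A f ∧
      n / 2 * Real.log (n / (2 * Real.pi * Real.exp 1 * v * gam A)) ≤
        gaussMean (v * minSq A / n) f - Real.log (cellMean A fun x => Real.exp (f x))

/-- Linearly independent vectors of the dual lattice, for all dimensions -/
def DualInequality : Prop :=
  ∀ n : ℕ, 0 < n → ∀ A : Matrix (Fin n) (Fin n) ℝ, A.det ≠ 0 → ∀ δ α : ℝ, 0 < δ → δ ≤ 1 → 0 < α →
    ∀ (k : ℕ) (w : Fin k → Fin n → ℝ), (∀ b, IsDual A (w b)) → LinearIndependent ℝ w →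
      δ / 4 * gam A ^ ((n : ℝ) / 2) * Real.exp (α / (1 + α) * ((∑ b, Real.exp
          (-(4 * Real.pi ^ 2 * (1 + 2 * α) * (1 + δ) ^ 2 * minSq A *
            (∑ i, w b i ^ 2) / n))) / 2)) ≤
        (1 + ((1 + δ) ^ 2 * (2 * Real.pi * Real.exp 1 * gam A / n)) ^ ((n : ℝ) / 2)) *
          hermite n ^ ((n : ℝ) / 2)

/-- Many short linearly independent vectors of the dual lattice -/
def ShortDualVectors : Prop :=
  ∀ ε C : ℝ, 0 < ε → ∃ n0 : ℕ, ∀ n ≥ n0, ∀ A : Matrix (Fin n) (Fin n) ℝ, A.det ≠ 0 →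
    ∀ (k : ℕ) (w : Fin k → Fin n → ℝ), ε * n ≤ k → LinearIndependent ℝ w →
      (∀ b, IsDual A (w b)) → (∀ b, minSq A * ∑ i, w b i ^ 2 ≤ C ^ 2 * n) →
      (1 + ε * Real.exp (-(48 * Real.pi ^ 2 * C ^ 2)) / 4) *
        min (gam A) (n / (2 * Real.pi * Real.exp 1)) ≤ hermite n

/-- Sublattices of `ℤⁿ` with minimum at most `C √n` -/
def IntegerSublattices : Prop :=
  ∀ C : ℝ, ∃ n0 : ℕ, ∀ n ≥ n0, ∀ M : Matrix (Fin n) (Fin n) ℤ, M.det ≠ 0 →
    minSq (M.map fun z : ℤ => (z : ℝ)) ≤ C ^ 2 * n →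
    (1 + Real.exp (-(48 * Real.pi ^ 2 * C ^ 2)) / 4) *
      min (gam (M.map fun z : ℤ => (z : ℝ))) (n / (2 * Real.pi * Real.exp 1)) ≤ hermite n

theorem result :
    Superlattices ∧ Coverage ∧ NoiseInequality ∧ SupercriticalNoise ∧ SubcriticalNoise ∧
      DualInequality ∧ ShortDualVectors ∧ IntegerSublattices :=
  ⟨fun _ hn _ hA _ h0 h1 => Run7.h748.Cov.super_full hn hA h0 h1,
    fun _ hn _ hA _ h0 h1 => Run7.h748.Cov.coverage hn hA h0 h1,
    fun _ hn _ hA _ _ h0 h1 h2 _ hf hp => Run7.h748.Cov.functional hn hA h0 h1 h2 hf hp,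
    fun _ _ hv hη => Run7.h748.Cov.gap_gauss hv hη,
    fun _ hn _ hA _ hv => Run7.h748.Cov.sharp hn hA hv,
    fun _ hn _ hA _ _ h0 h1 h2 _ _ hw hl => Run7.h748.Cov.dual_ineq hn hA h0 h1 h2 hw hl,
    fun _ C hε => Run7.h748.Cov.gap hε C,
    fun C => Run7.h748.Cov.gap_int C⟩

end Pool.Agent.Results.MP_ef2672_gt.CoverageAndDualVectors
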